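import Mathlib
import Pool.Agent.Q223.SpanNMain

/-!
# MP_593d43_lc: a span `n` sequence from orthogonal feedback with linear span below `2^n - 2 - 3n`
-/

set_option autoImplicit false

namespace Pool.Agent.Results.MP_593d43_lc.LowSpan

open Q223.SpanN

/-- There are a field `K` with `2 ^ 7` elements, a primitive element `α` of `K` (a root of the
primitive polynomial `X ^ 7 + X ^ 3 + 1`), an orthogonal function `g : K → 𝔽₂` which is not affine
in the coordinates with respect to the basis `1, α, …, α ^ 6`, taps `0 < r₁ < … < r₇ < 12` and a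
binary sequence `s` with `s_{k+12} = s_k + g(s_{k+r₁}, …, s_{k+r₇})` for all `k`, such that `s` is a
span `12` sequence (period `2 ^ 12 - 1`, every nonzero `12`-tuple exactly once in a period) and the
linear span of `s` is at most `4051`, so it is smaller than `2 ^ 12 - 2 - 3 * 12 = 4058`. -/
theorem result : ∃ (m n : ℕ) (K : Type) (_ : Field K) (_ : Fintype K) (_ : Algebra (ZMod 2) K)
    (α : K) (g : K → ZMod 2) (c : ZMod 2) (r : Fin m → ℕ) (s : ℕ → ZMod 2),
    m = 7 ∧ n = 12 ∧ Fintype.card K = 2 ^ m ∧ orderOf α = 2 ^ m - 1 ∧ α ^ 7 + α ^ 3 + 1 = 0 ∧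
    Orthogonal g ∧ ¬ AffineInCoordinates m α g ∧
    StrictMono r ∧ (∀ i, 0 < r i ∧ r i < n) ∧ Generated m n α g c r s ∧
    SpanSequence n s ∧ linearSpan s ≤ 4051 ∧ linearSpan s < 2 ^ n - 2 - 3 * n :=
  main

end Pool.Agent.Results.MP_593d43_lc.LowSpan
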